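import Pool.Agent.U331.MW.Mir

set_option autoImplicit false

/-! Random integers whose pairs of opposite digits can be exchanged: the class. -/

namespace Pool.Agent.U331.MW
open Finset
open Pool.Agent.H807R2.Dav
open Pool.Agent.W93.AU
open Pool.Agent.W93.DG
open Pool.Agent.N625.PT (TCls)
open Pool.Agent.U847.XP
open Pool.Agent.U847.TG

lemma norm_far (y c : ℝ) (h : ‖1 + ee y‖ ≤ 2 - c) (n : ℤ) : c / 7 ≤ |y - n| := by
  have h1 : ee y = ee (y - n) := by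
    have := ee_add_int (y - n) n
    rwa [sub_add_cancel] at this
  have h2 : ‖ee (y - n) - 1‖ ≤ 7 * |y - n| := by
    have e1 : ee (y - n) = Complex.exp (Complex.I * ((2 * Real.pi * (y - n) : ℝ) : ℂ)) := by
      unfold ee
      congr 1
      push_cast
      ring
    rw [e1]
    refine (Real.norm_exp_I_mul_ofReal_sub_one_le).trans ?_
    rw [Real.norm_eq_abs, abs_mul, abs_of_pos (by positivity)]
    have := Real.pi_lt_d2
    apply mul_le_mul_of_nonneg_right _ (abs_nonneg _)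
    linarith
  have h3 : (2 : ℝ) ≤ ‖1 + ee y‖ + ‖ee (y - n) - 1‖ := by
    have e2 : (2 : ℂ) = (1 + ee y) - (ee (y - n) - 1) := by rw [h1]; ring
    have e3 : ‖(2 : ℂ)‖ = 2 := by simp
    rw [← e3, e2]
    exact norm_sub_le _ _
  linarith

lemma det_ne (b : ℕ) (P Q P' Q' : ℤ) (hP : P ≠ 0) (hQ' : Q' ≠ 0) (hQb : |Q| < b) (hPb' : |P'| < b) :
    P * Q' * b ^ 2 - Q * P' ≠ 0 := by
  intro h
  have h1 : P * Q' * b ^ 2 = Q * P' := by linarith
  have h2 : |P * Q' * (b : ℤ) ^ 2| = |Q * P'| := by rw [h1]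
  rw [abs_mul, abs_mul, abs_mul] at h2
  have h3 : 1 ≤ |P| := Int.one_le_abs hP
  have h4 : 1 ≤ |Q'| := Int.one_le_abs hQ'
  have h5 : |(b : ℤ) ^ 2| = (b : ℤ) ^ 2 := abs_of_nonneg (by positivity)
  rw [h5] at h2
  have h6 : 1 ≤ |P| * |Q'| := by nlinarith
  have h7 : (b : ℤ) ^ 2 ≤ |P| * |Q'| * (b : ℤ) ^ 2 := le_mul_of_one_le_left (by positivity) h6
  have h8 : |Q| * |P'| < (b : ℤ) ^ 2 := by
    have g0 := abs_nonneg Q
    have g1 := abs_nonneg P'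
    nlinarith
  linarith

lemma det_le (b : ℕ) (P Q P' Q' : ℤ) (hPb : |P| < b) (hQb : |Q| < b) (hPb' : |P'| < b) (hQb' : |Q'| < b) :
    |P * Q' * b ^ 2 - Q * P'| ≤ (b : ℤ) ^ 4 := by
  have g0 := abs_nonneg P
  have g1 := abs_nonneg Q
  have g2 := abs_nonneg P'
  have g3 := abs_nonneg Q'
  have hb1 : (1 : ℤ) ≤ b := by linarith
  have h1 : |P * Q' * (b : ℤ) ^ 2 - Q * P'| ≤ |P| * |Q'| * (b : ℤ) ^ 2 + |Q| * |P'| := by
    refine (abs_sub _ _).trans ?_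
    rw [abs_mul, abs_mul, abs_mul, abs_of_nonneg (by positivity : (0 : ℤ) ≤ (b : ℤ) ^ 2)]
  have h2 : |P| * |Q'| ≤ ((b : ℤ) - 1) * (b - 1) := mul_le_mul (by linarith) (by linarith) g3 (by linarith)
  have h3 : |Q| * |P'| ≤ ((b : ℤ) - 1) * (b - 1) := mul_le_mul (by linarith) (by linarith) g2 (by linarith)
  have h4 : |P| * |Q'| * (b : ℤ) ^ 2 ≤ ((b : ℤ) - 1) * (b - 1) * (b : ℤ) ^ 2 := mul_le_mul_of_nonneg_right h2 (by positivity)
  have h5 : ((b : ℤ) - 1) * (b - 1) * (b : ℤ) ^ 2 + ((b : ℤ) - 1) * (b - 1) ≤ (b : ℤ) ^ 4 := by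
    have : (b : ℤ) ^ 4 - (((b : ℤ) - 1) * (b - 1) * (b : ℤ) ^ 2 + ((b : ℤ) - 1) * (b - 1)) =
        2 * (b : ℤ) ^ 2 * (b - 1) + ((b : ℤ) - 1) + b := by ring
    have g4 : 0 ≤ 2 * (b : ℤ) ^ 2 * (b - 1) + ((b : ℤ) - 1) + b := by
      have : 0 ≤ 2 * (b : ℤ) ^ 2 * ((b : ℤ) - 1) := mul_nonneg (by positivity) (by linarith)
      linarith
    linarith
  linarith

/-- two neighbouring bad pairs determine the frequency at the two positions -/
lemma two_bad {b k : ℕ} {δ θ : ℝ} (hb : 2 ≤ b) {i : ℕ} (hi : 2 * (i + 2) ≤ k) (h1 : ¬ GM b δ θ k i) (h2 : ¬ GM b δ θ k (i + 1)) :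
    (∃ n : ℤ, |(b : ℝ) ^ i * (((b ^ 4).factorial : ℝ) * θ) - n| ≤ 2 * ((b ^ 4).factorial : ℝ) * (b : ℝ) ^ 2 * δ) ∧
    (∃ n : ℤ, |(b : ℝ) ^ (k - 2 - i) * (((b ^ 4).factorial : ℝ) * θ) - n| ≤ 2 * ((b ^ 4).factorial : ℝ) * (b : ℝ) ^ 2 * δ) := by
  unfold GM at h1 h2
  push Not at h1 h2
  obtain ⟨P, Q, hP, hQ, hPb, hQb, n, hn⟩ := h1
  obtain ⟨P', Q', hP', hQ', hPb', hQb', n', hn'⟩ := h2
  obtain ⟨Δ, hΔ⟩ : ∃ Δ : ℤ, Δ = P * Q' * b ^ 2 - Q * P' := ⟨_, rfl⟩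
  have hΔ0 : Δ ≠ 0 := by rw [hΔ]; exact det_ne b P Q P' Q' hP hQ' hQb hPb'
  have hΔ1 : |Δ| ≤ (b : ℤ) ^ 4 := by rw [hΔ]; exact det_le b P Q P' Q' hPb hQb hPb' hQb'
  obtain ⟨M, hM⟩ : ∃ M : ℕ, M = (b ^ 4).factorial := ⟨_, rfl⟩
  rw [← hM]
  have hdv : Δ ∣ (M : ℤ) := by
    rw [← Int.natAbs_dvd_natAbs, Int.natAbs_natCast, hM]
    apply Nat.dvd_factorial (Int.natAbs_pos.2 hΔ0)
    have : ((Δ.natAbs : ℕ) : ℤ) ≤ ((b ^ 4 : ℕ) : ℤ) := by
      rw [Int.natCast_natAbs]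
      exact_mod_cast hΔ1
    exact_mod_cast this
  obtain ⟨D, hD⟩ := hdv
  have hDM : |(D : ℝ)| ≤ M := by
    have g1 : |D| ≤ |Δ| * |D| := le_mul_of_one_le_left (abs_nonneg _) (Int.one_le_abs hΔ0)
    have g2 : |Δ| * |D| = (M : ℤ) := by rw [← abs_mul, ← hD]; exact abs_of_nonneg (Int.natCast_nonneg M)
    have g3 : |D| ≤ (M : ℤ) := by linarith
    exact_mod_cast g3
  obtain ⟨x, hx⟩ : ∃ x : ℝ, x = (b : ℝ) ^ i * θ := ⟨_, rfl⟩
  obtain ⟨Y, hY⟩ : ∃ Y : ℝ, Y = (b : ℝ) ^ (k - 2 - i) * θ := ⟨_, rfl⟩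
  have e1 : ((P : ℝ) * (b : ℝ) ^ (k - 1 - i) + Q * (b : ℝ) ^ i) * θ = P * b * Y + Q * x := by
    have : k - 1 - i = (k - 2 - i) + 1 := by omega
    rw [this, hx, hY]
    ring
  have e2 : ((P' : ℝ) * (b : ℝ) ^ (k - 1 - (i + 1)) + Q' * (b : ℝ) ^ (i + 1)) * θ = P' * Y + Q' * b * x := by
    have : k - 1 - (i + 1) = k - 2 - i := by omega
    rw [this, hx, hY]
    ring
  rw [e1] at hn
  rw [e2] at hn'
  have hMD : (M : ℝ) = (P * Q' * b ^ 2 - Q * P') * D := by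
    have g1 : (M : ℤ) = (P * Q' * b ^ 2 - Q * P') * D := by rw [← hΔ]; exact hD
    exact_mod_cast g1
  have hbr : (2 : ℝ) ≤ b := by exact_mod_cast hb
  have hPr : |(P : ℝ)| ≤ b := by exact_mod_cast hPb.le
  have hQr : |(Q : ℝ)| ≤ b := by exact_mod_cast hQb.le
  have hPr' : |(P' : ℝ)| ≤ b := by exact_mod_cast hPb'.le
  have hQr' : |(Q' : ℝ)| ≤ b := by exact_mod_cast hQb'.le
  have hδ0 : 0 ≤ δ := (abs_nonneg _).trans hn.le
  have hM0 : (0 : ℝ) ≤ M := Nat.cast_nonneg M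
  have hbb : (b : ℝ) ≤ (b : ℝ) ^ 2 := by nlinarith
  constructor
  · refine ⟨-D * (P' * n - P * b * n'), ?_⟩
    have e3 : (b : ℝ) ^ i * ((M : ℝ) * θ) - ((-D * (P' * n - P * b * n') : ℤ) : ℝ) =
        -D * (P' * ((P * b * Y + Q * x) - n) - P * b * ((P' * Y + Q' * b * x) - n')) := by
      have : (b : ℝ) ^ i * ((M : ℝ) * θ) = M * x := by rw [hx]; ring
      rw [this, hMD]
      push_cast
      ring
    rw [e3, abs_mul, abs_neg]
    have h3 : |(P' : ℝ) * ((P * b * Y + Q * x) - n) - P * b * ((P' * Y + Q' * b * x) - n')| ≤ 2 * (b : ℝ) ^ 2 * δ := by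
      refine (abs_sub _ _).trans ?_
      rw [abs_mul, abs_mul, abs_mul, abs_of_nonneg (by positivity : (0 : ℝ) ≤ (b : ℝ))]
      have k1 : |(P' : ℝ)| * |P * b * Y + Q * x - n| ≤ (b : ℝ) ^ 2 * δ :=
        mul_le_mul (hPr'.trans hbb) hn.le (abs_nonneg _) (by positivity)
      have k2 : |(P : ℝ)| * b * |P' * Y + Q' * b * x - n'| ≤ (b : ℝ) ^ 2 * δ := by
        apply mul_le_mul _ hn'.le (abs_nonneg _) (by positivity)
        rw [sq]
        exact mul_le_mul_of_nonneg_right hPr (by positivity)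
      linarith
    calc |(D : ℝ)| * |(P' : ℝ) * ((P * b * Y + Q * x) - n) - P * b * ((P' * Y + Q' * b * x) - n')| ≤ M * (2 * (b : ℝ) ^ 2 * δ) :=
          mul_le_mul hDM h3 (abs_nonneg _) hM0
      _ = 2 * (M : ℝ) * (b : ℝ) ^ 2 * δ := by ring
  · refine ⟨D * (Q' * b * n - Q * n'), ?_⟩
    have e3 : (b : ℝ) ^ (k - 2 - i) * ((M : ℝ) * θ) - ((D * (Q' * b * n - Q * n') : ℤ) : ℝ) =
        D * (Q' * b * ((P * b * Y + Q * x) - n) - Q * ((P' * Y + Q' * b * x) - n')) := by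
      have : (b : ℝ) ^ (k - 2 - i) * ((M : ℝ) * θ) = M * Y := by rw [hY]; ring
      rw [this, hMD]
      push_cast
      ring
    rw [e3, abs_mul]
    have h3 : |(Q' : ℝ) * b * ((P * b * Y + Q * x) - n) - Q * ((P' * Y + Q' * b * x) - n')| ≤ 2 * (b : ℝ) ^ 2 * δ := by
      refine (abs_sub _ _).trans ?_
      rw [abs_mul, abs_mul, abs_mul, abs_of_nonneg (by positivity : (0 : ℝ) ≤ (b : ℝ))]
      have k1 : |(Q' : ℝ)| * b * |P * b * Y + Q * x - n| ≤ (b : ℝ) ^ 2 * δ := by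
        apply mul_le_mul _ hn.le (abs_nonneg _) (by positivity)
        rw [sq]
        exact mul_le_mul_of_nonneg_right hQr' (by positivity)
      have k2 : |(Q : ℝ)| * |P' * Y + Q' * b * x - n'| ≤ (b : ℝ) ^ 2 * δ :=
        mul_le_mul (hQr.trans hbb) hn'.le (abs_nonneg _) (by positivity)
      linarith
    calc |(D : ℝ)| * |(Q' : ℝ) * b * ((P * b * Y + Q * x) - n) - Q * ((P' * Y + Q' * b * x) - n')| ≤ M * (2 * (b : ℝ) ^ 2 * δ) :=
          mul_le_mul hDM h3 (abs_nonneg _) hM0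
      _ = 2 * (M : ℝ) * (b : ℝ) ^ 2 * δ := by ring

open Classical in
/-- the number of the good positions -/
lemma count_good {b k : ℕ} {δ θ c : ℝ} (hb : 2 ≤ b) (hδ : 2 * ((b ^ 4).factorial : ℝ) * (b : ℝ) ^ 2 * δ < c / 7) :
    ((range k).filter (fun j : ℕ => Gd b c ((b : ℝ) ^ j * ((((b ^ 4).factorial : ℕ) : ℝ) * θ)))).card ≤
      4 * ((range (k / 2)).filter (fun i => GM b δ θ k i)).card + 3 := by
  obtain ⟨𝒢, h𝒢⟩ : ∃ 𝒢, 𝒢 = (range (k / 2)).filter (fun i => GM b δ θ k i) := ⟨_, rfl⟩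
  rw [← h𝒢]
  have hbad : ∀ j : ℕ, Gd b c ((b : ℝ) ^ j * ((((b ^ 4).factorial : ℕ) : ℝ) * θ)) →
      ¬ ∃ n : ℤ, |(b : ℝ) ^ j * (((b ^ 4).factorial : ℝ) * θ) - n| ≤ 2 * ((b ^ 4).factorial : ℝ) * (b : ℝ) ^ 2 * δ := by
    rintro j hj ⟨n, hn⟩
    have h1 := hj 0 1 (by norm_num) (by omega)
    rw [Nat.cast_zero, zero_mul, Nat.cast_one, one_mul] at h1
    have h2 : ee 0 = 1 := by
      have := ee_int 0
      rwa [Int.cast_zero] at this
    rw [h2] at h1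
    have h3 := norm_far _ c h1 n
    linarith
  have hsub : (range k).filter (fun j : ℕ => Gd b c ((b : ℝ) ^ j * ((((b ^ 4).factorial : ℕ) : ℝ) * θ))) ⊆
      (𝒢 ∪ 𝒢.image (fun i => i - 1)) ∪ (𝒢.image (fun i => k - 2 - i) ∪ 𝒢.image (fun i => k - 1 - i)) ∪ {k / 2 - 1, k / 2, k - 1} := by
    intro j hj
    rw [mem_filter, mem_range] at hj
    obtain ⟨hj1, hj2⟩ := hj
    have hj3 := hbad j hj2
    simp only [mem_union, mem_image, mem_insert, mem_singleton]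
    by_cases hjs : j = k / 2 - 1 ∨ j = k / 2 ∨ j = k - 1
    · exact Or.inr hjs
    left
    push Not at hjs
    obtain ⟨s1, s2, s3⟩ := hjs
    by_cases hlow : j < k / 2 - 1
    · left
      by_cases g1 : GM b δ θ k j
      · left
        rw [h𝒢, mem_filter, mem_range]
        exact ⟨by omega, g1⟩
      · by_cases g2 : GM b δ θ k (j + 1)
        · right
          refine ⟨j + 1, ?_, by omega⟩
          rw [h𝒢, mem_filter, mem_range]
          exact ⟨by omega, g2⟩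
        · exact absurd (two_bad hb (by omega) g1 g2).1 hj3
    · right
      obtain ⟨i, hi⟩ : ∃ i, i = k - 2 - j := ⟨_, rfl⟩
      have hji : j = k - 2 - i := by omega
      by_cases g1 : GM b δ θ k i
      · left
        refine ⟨i, ?_, by omega⟩
        rw [h𝒢, mem_filter, mem_range]
        exact ⟨by omega, g1⟩
      · by_cases g2 : GM b δ θ k (i + 1)
        · right
          refine ⟨i + 1, ?_, by omega⟩
          rw [h𝒢, mem_filter, mem_range]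
          exact ⟨by omega, g2⟩
        · rw [hji] at hj3
          exact absurd (two_bad hb (by omega) g1 g2).2 hj3
  refine (card_le_card hsub).trans ?_
  have c1 := card_union_le ((𝒢 ∪ 𝒢.image (fun i => i - 1)) ∪ (𝒢.image (fun i => k - 2 - i) ∪ 𝒢.image (fun i => k - 1 - i))) {k / 2 - 1, k / 2, k - 1}
  have c2 := card_union_le (𝒢 ∪ 𝒢.image (fun i => i - 1)) (𝒢.image (fun i => k - 2 - i) ∪ 𝒢.image (fun i => k - 1 - i))
  have c3 := card_union_le 𝒢 (𝒢.image (fun i => i - 1))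
  have c4 := card_union_le (𝒢.image (fun i => k - 2 - i)) (𝒢.image (fun i => k - 1 - i))
  have c5 : (𝒢.image (fun i => i - 1)).card ≤ 𝒢.card := card_image_le
  have c6 : (𝒢.image (fun i => k - 2 - i)).card ≤ 𝒢.card := card_image_le
  have c7 : (𝒢.image (fun i => k - 1 - i)).card ≤ 𝒢.card := card_image_le
  have c8 : ({k / 2 - 1, k / 2, k - 1} : Finset ℕ).card ≤ 3 := card_le_three
  omega

/-- the exponential sums decay exponentially -/
theorem mir_exp (b : ℕ) (hb : 2 ≤ b) (η : ℝ) (hη0 : 0 < η) (hη1 : η ≤ 1) (T : ℕ) : CharExp b (b ^ 4).factorial (Mirror b η T) := by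
  classical
  intro c hc0 hc1
  obtain ⟨M, hM⟩ : ∃ M : ℕ, M = (b ^ 4).factorial := ⟨_, rfl⟩
  have hM1 : (1 : ℝ) ≤ M := by rw [hM]; exact_mod_cast Nat.factorial_pos _
  have hbr : (2 : ℝ) ≤ b := by exact_mod_cast hb
  obtain ⟨δ, hδ⟩ : ∃ δ : ℝ, δ = c / (28 * M * (b : ℝ) ^ 2) := ⟨_, rfl⟩
  have hδ0 : 0 < δ := by rw [hδ]; positivity
  have hδ7 : 2 * (M : ℝ) * (b : ℝ) ^ 2 * δ < c / 7 := by
    have : 2 * (M : ℝ) * (b : ℝ) ^ 2 * δ = c / 14 := by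
      rw [hδ]
      field_simp
      norm_num
    rw [this]
    linarith
  have hδ1 : δ ≤ 1 / 2 := by
    rw [hδ, div_le_iff₀ (by positivity)]
    have : (1 : ℝ) ≤ M * (b : ℝ) ^ 2 := by nlinarith
    nlinarith
  obtain ⟨ν, hν⟩ : ∃ ν : ℝ, ν = 1 - 2 * δ ^ 2 * η ^ 2 := ⟨_, rfl⟩
  have hν0 : 0 < ν := by
    rw [hν]
    have h1 : δ ^ 2 ≤ 1 / 4 := by nlinarith
    have h2 : η ^ 2 ≤ 1 := by nlinarith
    have : δ ^ 2 * η ^ 2 ≤ 1 / 4 * 1 := mul_le_mul h1 h2 (by positivity) (by norm_num)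
    linarith
  have hν1 : ν < 1 := by
    rw [hν]
    have : 0 < δ ^ 2 * η ^ 2 := by positivity
    linarith
  refine ⟨ν, T, 4, hν0, hν1, by norm_num, fun k p hp θ n ht => ?_⟩
  obtain ⟨h0, _, μ, _, hμ1, hpμ, hex⟩ := hp
  have h2 := count_good (k := k) (θ := θ) hb (by rw [← hM]; exact hδ7)
  have h3 : n ≤ ((range (k / 2)).filter (fun i => GM b δ θ k i)).card := by omega
  have h4 := Z_bound (C := (k : ℝ) ^ T) hη0 hη1 (by positivity) h0 hpμ hex θ δ hδ0 hδ1 k 0 0 0 (by omega) (by norm_num) (by norm_num)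
  have e1 : ∀ w, frame b k 0 0 0 w = w := fun w => by unfold frame; simp
  have e2 : Z b p θ k 0 0 0 = ∑ v ∈ range (b ^ k), (p v : ℂ) * ee (v * θ) := by
    unfold Z
    apply sum_congr rfl
    intro w _
    rw [e1, pow_zero, mul_one]
  have e3 : outer b μ k 0 0 0 = 1 := by
    unfold outer
    simp only [e1]
    exact hμ1
  rw [e2, e3, mul_one, ← hν] at h4
  refine h4.trans ?_
  apply mul_le_mul_of_nonneg_left _ (by positivity)
  have e4 : (range (k / 2)).filter (fun j => 0 ≤ j ∧ GM b δ θ k j) = (range (k / 2)).filter (fun i => GM b δ θ k i) := by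
    apply filter_congr
    intro j _
    simp
  rw [e4]
  exact pow_le_pow_of_le_one hν0.le hν1.le h3

/-- from the exponential decay to the law for all the multiples -/
theorem good_of_exp (b M : ℕ) (hb : 2 ≤ b) (C : ℕ → (ℕ → ℝ) → Prop) (h : CharExp b M C) : CharGood b M C := by
  intro c hc0 hc1 V
  obtain ⟨μ, T, D, hμ0, hμ1, hD, hh⟩ := h c hc0 hc1
  have hbr : (2 : ℝ) ≤ b := by exact_mod_cast hb
  obtain ⟨D', hD'⟩ := exists_pow_lt_of_lt_one (show 0 < (1 / (b : ℝ)) ^ (V + T) by positivity) hμ1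
  refine ⟨D * (D' + 1), 1, fun K hK m hmK p hp θ ht => ?_⟩
  obtain ⟨Lg, hLg⟩ : ∃ Lg, Lg = Nat.log b K + 1 := ⟨_, rfl⟩
  have hLg1 : 1 ≤ Lg := by omega
  rw [← hLg] at ht
  have h1 : D * (D' * Lg + 1) ≤ D * (D' + 1) * Lg := by
    rw [mul_assoc]
    apply Nat.mul_le_mul_left
    nlinarith
  refine (hh m p hp θ (D' * Lg) (h1.trans ht)).trans ?_
  have hK0 : (0 : ℝ) < K := by exact_mod_cast hK
  have hmr : (m : ℝ) ^ T ≤ (K : ℝ) ^ T := pow_le_pow_left₀ (Nat.cast_nonneg m) (by exact_mod_cast hmK) T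
  have hKb : (K : ℝ) ≤ (b : ℝ) ^ Lg := by
    rw [hLg]
    exact_mod_cast (Nat.lt_pow_succ_log_self (by omega) K).le
  have h2 : μ ^ (D' * Lg) ≤ 1 / (K : ℝ) ^ (V + T) := by
    calc μ ^ (D' * Lg) = (μ ^ D') ^ Lg := by rw [pow_mul]
      _ ≤ ((1 / (b : ℝ)) ^ (V + T)) ^ Lg := pow_le_pow_left₀ (by positivity) hD'.le _
      _ = 1 / ((b : ℝ) ^ Lg) ^ (V + T) := by
          rw [one_div, inv_pow, inv_pow, one_div, ← pow_mul, ← pow_mul, mul_comm]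
      _ ≤ 1 / (K : ℝ) ^ (V + T) := by
          apply one_div_le_one_div_of_le (by positivity)
          exact pow_le_pow_left₀ hK0.le hKb _
  calc (m : ℝ) ^ T * μ ^ (D' * Lg) ≤ (K : ℝ) ^ T * (1 / (K : ℝ) ^ (V + T)) := mul_le_mul hmr h2 (by positivity) (by positivity)
    _ = 1 / (K : ℝ) ^ V := by
        rw [pow_add]
        field_simp

theorem scls_of_exp (b M : ℕ) (hb : 2 ≤ b) (hM : 1 ≤ M) (C : ℕ → (ℕ → ℝ) → Prop) (hnn : ∀ k p, C k p → ∀ v, 0 ≤ p v)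
    (hsum : ∀ k p, C k p → ∑ v ∈ range (b ^ k), p v = 1) (h : CharExp b M C) : SCls b (b.factorial * M) C :=
  ⟨hb, hnn, hsum, rat_of b M hb hM C h, fun κ hκ => tcls_of b M hb hM C hnn hsum (good_of_exp b M hb C h) κ hκ⟩

/-- mirror words: the class -/
theorem mir_scls (b : ℕ) (hb : 2 ≤ b) (η : ℝ) (hη0 : 0 < η) (hη1 : η ≤ 1) (T : ℕ) :
    SCls b (b.factorial * (b ^ 4).factorial) (Mirror b η T) :=
  scls_of_exp b _ hb (Nat.factorial_pos _) _ (fun _ _ h => h.nonneg) (fun _ _ h => h.sum) (mir_exp b hb η hη0 hη1 T)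

end Pool.Agent.U331.MW
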