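import Pool.Agent.U847.XC

set_option autoImplicit false

/-! Random integers whose pairs of opposite digits can be exchanged (for example palindromes): the exponential sums. -/

namespace Pool.Agent.U331.MW
open Finset
open Pool.Agent.H807R2.Dav
open Pool.Agent.W93.AU
open Pool.Agent.W93.DG
open Pool.Agent.N625.PT (TCls sum_blocks ratio_bd)
open Pool.Agent.U847.XP
open Pool.Agent.U847.TG

/-- the integer with the digits `u` (`i` digits), `w` (`m` digits), `u'` (`i` digits) -/
def frame (b m i u u' w : ℕ) : ℕ := u * b ^ (m + i) + (w * b ^ i + u')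

/-- the weight of the words which begin with the `i` digits `u` and end with the `i` digits `u'` -/
noncomputable def outer (b : ℕ) (μ : ℕ → ℝ) (m i u u' : ℕ) : ℝ := ∑ w ∈ range (b ^ m), μ (frame b m i u u' w)

structure Mirror (b : ℕ) (η : ℝ) (T k : ℕ) (p : ℕ → ℝ) : Prop where
  nonneg : ∀ v, 0 ≤ p v
  sum : ∑ v ∈ range (b ^ k), p v = 1
  dominated : ∃ μ : ℕ → ℝ, (∀ v, 0 ≤ μ v) ∧ ∑ v ∈ range (b ^ k), μ v = 1 ∧ (∀ v < b ^ k, p v ≤ (k : ℝ) ^ T * μ v) ∧
    ∀ i m u u' : ℕ, m + 2 * (i + 1) = k → u < b ^ i → u' < b ^ i → ∃ (a a' c c' : ℕ) (r : ℝ),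
      (a < b ∧ a' < b ∧ c < b ∧ c' < b) ∧ a ≠ c ∧ a' ≠ c' ∧ η ≤ r ∧ η * r ≤ 1 ∧
      (∀ w < b ^ m, p (frame b m (i + 1) (b * u + a) (a' * b ^ i + u') w) =
        r * p (frame b m (i + 1) (b * u + c) (c' * b ^ i + u') w)) ∧
      η * outer b μ (m + 2) i u u' ≤ outer b μ m (i + 1) (b * u + a) (a' * b ^ i + u') ∧
      η * outer b μ (m + 2) i u u' ≤ outer b μ m (i + 1) (b * u + c) (c' * b ^ i + u')

/-- one pair of opposite digits -/
lemma sum_frame {α : Type} [AddCommMonoid α] (b m i u u' : ℕ) (f : ℕ → ℕ → α) :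
    ∑ w ∈ range (b ^ (m + 2)), f (frame b (m + 2) i u u' w) w =
      ∑ a ∈ range b, ∑ a' ∈ range b, ∑ w ∈ range (b ^ m),
        f (frame b m (i + 1) (b * u + a) (a' * b ^ i + u') w) (a * b ^ (m + 1) + (w * b + a')) := by
  have e1 : b ^ (m + 2) = b * (b ^ m * b) := by ring
  rw [e1, sum_blocks]
  apply sum_congr rfl
  intro a _
  rw [sum_blocks, sum_comm]
  apply sum_congr rfl
  intro a' _
  apply sum_congr rfl
  intro w _
  have e2 : frame b (m + 2) i u u' (a * (b ^ m * b) + (w * b + a')) = frame b m (i + 1) (b * u + a) (a' * b ^ i + u') w := by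
    unfold frame
    ring
  have e3 : a * (b ^ m * b) + (w * b + a') = a * b ^ (m + 1) + (w * b + a') := by ring
  rw [e2, e3]

lemma outer_step (b : ℕ) (μ : ℕ → ℝ) (m i u u' : ℕ) :
    outer b μ (m + 2) i u u' = ∑ a ∈ range b, ∑ a' ∈ range b, outer b μ m (i + 1) (b * u + a) (a' * b ^ i + u') := by
  unfold outer
  exact sum_frame b m i u u' (fun x _ => μ x)

/-- the exponential sum over the inner parts -/
noncomputable def Z (b : ℕ) (p : ℕ → ℝ) (θ : ℝ) (m i u u' : ℕ) : ℂ :=
  ∑ w ∈ range (b ^ m), (p (frame b m i u u' w) : ℂ) * ee (((w * b ^ i : ℕ) : ℝ) * θ)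

lemma Z_step (b : ℕ) (p : ℕ → ℝ) (θ : ℝ) (m i u u' : ℕ) :
    Z b p θ (m + 2) i u u' = ∑ a ∈ range b, ∑ a' ∈ range b, ee (((a : ℝ) * b ^ (m + i + 1) + a' * b ^ i) * θ) *
      Z b p θ m (i + 1) (b * u + a) (a' * b ^ i + u') := by
  unfold Z
  rw [sum_frame b m i u u' (fun x w => (p x : ℂ) * ee (((w * b ^ i : ℕ) : ℝ) * θ))]
  apply sum_congr rfl
  intro a _
  apply sum_congr rfl
  intro a' _
  rw [mul_sum]
  apply sum_congr rfl
  intro w _
  have e1 : (((a * b ^ (m + 1) + (w * b + a')) * b ^ i : ℕ) : ℝ) * θ =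
      ((a : ℝ) * b ^ (m + i + 1) + a' * b ^ i) * θ + ((w * b ^ (i + 1) : ℕ) : ℝ) * θ := by
    push_cast
    ring
  simp only [e1, ee_add]
  ring

lemma frame_lt {b m i u u' w : ℕ} (hu : u < b ^ i) (hu' : u' < b ^ i) (hw : w < b ^ m) : frame b m i u u' w < b ^ (m + 2 * i) := by
  have h1 : w * b ^ i + u' < b ^ (m + i) := by
    calc w * b ^ i + u' < w * b ^ i + b ^ i := by omega
      _ = (w + 1) * b ^ i := by ring
      _ ≤ b ^ m * b ^ i := Nat.mul_le_mul_right _ (by omega)
      _ = b ^ (m + i) := by rw [pow_add]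
  unfold frame
  calc u * b ^ (m + i) + (w * b ^ i + u') < u * b ^ (m + i) + b ^ (m + i) := by omega
    _ = (u + 1) * b ^ (m + i) := by ring
    _ ≤ b ^ i * b ^ (m + i) := Nat.mul_le_mul_right _ (by omega)
    _ = b ^ (m + 2 * i) := by rw [← pow_add]; congr 1; omega

lemma left_lt {b i u a : ℕ} (hu : u < b ^ i) (ha : a < b) : b * u + a < b ^ (i + 1) := by
  calc b * u + a < b * u + b := by omega
    _ = b * (u + 1) := by ring
    _ ≤ b * b ^ i := Nat.mul_le_mul_left _ (by omega)
    _ = b ^ (i + 1) := by ring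

lemma right_lt {b i u' a' : ℕ} (hu : u' < b ^ i) (ha : a' < b) : a' * b ^ i + u' < b ^ (i + 1) := by
  calc a' * b ^ i + u' < a' * b ^ i + b ^ i := by omega
    _ = (a' + 1) * b ^ i := by ring
    _ ≤ b * b ^ i := Nat.mul_le_mul_right _ (by omega)
    _ = b ^ (i + 1) := by ring

/-- the frequency is far from the integers for all the exchanges of the pair number `i` -/
def GM (b : ℕ) (δ θ : ℝ) (k i : ℕ) : Prop := ∀ P Q : ℤ, P ≠ 0 → Q ≠ 0 → |P| < b → |Q| < b → ∀ n : ℤ,
  δ ≤ |((P : ℝ) * (b : ℝ) ^ (k - 1 - i) + Q * (b : ℝ) ^ i) * θ - n|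

lemma far_norm (δ z : ℝ) (hδ : 0 ≤ δ) (h : ∀ n : ℤ, δ ≤ |z - n|) : ‖1 + ee z‖ ≤ 2 - 4 * δ ^ 2 := by
  have h1 := gd_dist 2 δ z hδ (fun d hd0 hd1 n => by
    have : d = 1 := by omega
    rw [this, Nat.cast_one, one_mul]
    exact h n) 0 1 (by norm_num) (by norm_num)
  rw [Nat.cast_zero, zero_mul, Nat.cast_one, one_mul] at h1
  have h2 : ee 0 = 1 := by
    have := ee_int 0
    rwa [Int.cast_zero] at this
  rwa [h2] at h1

open Classical in
/-- the decay of the exponential sums -/
theorem Z_bound {b k : ℕ} {η C : ℝ} {p μ : ℕ → ℝ} (hη0 : 0 < η) (hη1 : η ≤ 1) (hC : 0 ≤ C) (h0 : ∀ v, 0 ≤ p v)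
    (hp : ∀ v < b ^ k, p v ≤ C * μ v)
    (hex : ∀ i m u u' : ℕ, m + 2 * (i + 1) = k → u < b ^ i → u' < b ^ i → ∃ (a a' c c' : ℕ) (r : ℝ),
      (a < b ∧ a' < b ∧ c < b ∧ c' < b) ∧ a ≠ c ∧ a' ≠ c' ∧ η ≤ r ∧ η * r ≤ 1 ∧
      (∀ w < b ^ m, p (frame b m (i + 1) (b * u + a) (a' * b ^ i + u') w) =
        r * p (frame b m (i + 1) (b * u + c) (c' * b ^ i + u') w)) ∧
      η * outer b μ (m + 2) i u u' ≤ outer b μ m (i + 1) (b * u + a) (a' * b ^ i + u') ∧
      η * outer b μ (m + 2) i u u' ≤ outer b μ m (i + 1) (b * u + c) (c' * b ^ i + u'))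
    (θ δ : ℝ) (hδ0 : 0 < δ) (hδ1 : δ ≤ 1 / 2) (m : ℕ) :
    ∀ i u u', m + 2 * i = k → u < b ^ i → u' < b ^ i → ‖Z b p θ m i u u'‖ ≤ C * outer b μ m i u u' *
      (1 - 2 * δ ^ 2 * η ^ 2) ^ ((range (k / 2)).filter (fun j => i ≤ j ∧ GM b δ θ k j)).card := by
  obtain ⟨ν, hν⟩ : ∃ ν, ν = 1 - 2 * δ ^ 2 * η ^ 2 := ⟨_, rfl⟩
  have hδ2 : δ ^ 2 ≤ 1 / 4 := by nlinarith
  have hη2 : η ^ 2 ≤ 1 := by nlinarith
  have hν0 : 0 ≤ ν := by
    rw [hν]
    have : δ ^ 2 * η ^ 2 ≤ 1 / 4 * 1 := mul_le_mul hδ2 hη2 (by positivity) (by norm_num)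
    linarith
  rw [← hν]
  induction m using Nat.strong_induction_on with
  | _ m ih =>
    intro i u u' hk hu hu'
    have hb : 0 < b ^ i := by omega
    by_cases hm : m < 2
    · have hk2 : k / 2 = i := by omega
      have h1 : ((range (k / 2)).filter (fun j => i ≤ j ∧ GM b δ θ k j)).card = 0 := by
        rw [card_eq_zero, filter_eq_empty_iff]
        intro j hj
        rw [mem_range] at hj
        omega
      rw [h1, pow_zero, mul_one]
      unfold Z outer
      refine (norm_sum_le _ _).trans ?_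
      rw [mul_sum]
      apply sum_le_sum
      intro w hw
      rw [mem_range] at hw
      rw [norm_mul, norm_ee, mul_one, Complex.norm_real, Real.norm_eq_abs, abs_of_nonneg (h0 _)]
      apply hp
      rw [← hk]
      exact frame_lt hu hu' hw
    · obtain ⟨n, rfl⟩ : ∃ n, m = n + 2 := ⟨m - 2, by omega⟩
      have hki : n + 2 * (i + 1) = k := by omega
      have hib : 0 < b := by
        rcases Nat.eq_zero_or_pos b with h | h
        · obtain ⟨a, a', c, c', r, ⟨q1, _⟩, _⟩ := hex i n u u' hki hu hu'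
          omega
        · exact h
      obtain ⟨S, hS⟩ : ∃ S : ℕ × ℕ → ℂ, S = fun q => Z b p θ n (i + 1) (b * u + q.1) (q.2 * b ^ i + u') := ⟨_, rfl⟩
      obtain ⟨E, hE⟩ : ∃ E : ℕ × ℕ → ℂ, E = fun q => ee (((q.1 : ℝ) * b ^ (n + i + 1) + q.2 * b ^ i) * θ) := ⟨_, rfl⟩
      obtain ⟨h, hh⟩ : ∃ h : ℕ × ℕ → ℝ, h = fun q => outer b μ n (i + 1) (b * u + q.1) (q.2 * b ^ i + u') := ⟨_, rfl⟩
      obtain ⟨F, hF⟩ : ∃ F, F = ν ^ ((range (k / 2)).filter (fun j => i + 1 ≤ j ∧ GM b δ θ k j)).card := ⟨_, rfl⟩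
      have hF0 : 0 ≤ F := by rw [hF]; positivity
      have hnE : ∀ q, ‖E q‖ = 1 := fun q => by rw [hE]; exact norm_ee _
      have hZ : Z b p θ (n + 2) i u u' = ∑ q ∈ range b ×ˢ range b, E q * S q := by
        rw [Z_step, ← sum_product', hE, hS]
      have hO : outer b μ (n + 2) i u u' = ∑ q ∈ range b ×ˢ range b, h q := by
        rw [outer_step, ← sum_product', hh]
      have hSb : ∀ q ∈ range b ×ˢ range b, ‖S q‖ ≤ C * h q * F := by
        intro q hq
        rw [mem_product, mem_range, mem_range] at hq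
        rw [hS, hh, hF]
        exact ih n (by omega) (i + 1) _ _ (by omega) (left_lt hu hq.1) (right_lt hu' hq.2)
      by_cases hg : GM b δ θ k i
      · obtain ⟨a, a', c, c', r, ⟨q1, q2, q3, q4⟩, hac, hac', hr1, hr2, hx, hp1, hp2⟩ := hex i n u u' hki hu hu'
        have hr0 : 0 ≤ r := hη0.le.trans hr1
        have hG : ((range (k / 2)).filter (fun j => i ≤ j ∧ GM b δ θ k j)).card =
            ((range (k / 2)).filter (fun j => i + 1 ≤ j ∧ GM b δ θ k j)).card + 1 := by
          have e1 : (range (k / 2)).filter (fun j => i ≤ j ∧ GM b δ θ k j) =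
              insert i ((range (k / 2)).filter (fun j => i + 1 ≤ j ∧ GM b δ θ k j)) := by
            ext j
            rw [mem_filter, mem_insert, mem_filter, mem_range]
            constructor
            · rintro ⟨g1, g2, g3⟩
              by_cases hj : j = i
              · exact Or.inl hj
              · exact Or.inr ⟨g1, by omega, g3⟩
            · rintro (rfl | ⟨g1, g2, g3⟩)
              · exact ⟨by omega, le_rfl, hg⟩
              · exact ⟨g1, by omega, g3⟩
          rw [e1, card_insert_of_notMem]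
          rw [mem_filter]
          omega
        rw [hG, pow_succ, ← hF, hZ]
        have hα : (a, a') ∈ range b ×ˢ range b := by
          rw [mem_product, mem_range, mem_range]
          exact ⟨q1, q2⟩
        have hβ : (c, c') ∈ (range b ×ˢ range b).erase (a, a') := by
          rw [mem_erase, mem_product, mem_range, mem_range]
          refine ⟨fun hcon => hac ?_, q3, q4⟩
          rw [Prod.mk.injEq] at hcon
          exact hcon.1.symm
        have hβ' := mem_of_mem_erase hβ
        rw [← add_sum_erase _ _ hα, ← add_sum_erase _ _ hβ]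
        have hSr : S (a, a') = (r : ℂ) * S (c, c') := by
          rw [hS]
          simp only
          unfold Z
          rw [mul_sum]
          apply sum_congr rfl
          intro w hw
          rw [mem_range] at hw
          rw [hx w hw]
          push_cast
          ring
        have hEE : ‖(r : ℂ) * E (a, a') + E (c, c')‖ ≤ (r + 1) * (1 - δ ^ 2 * η) := by
          obtain ⟨z, hz⟩ : ∃ z : ℝ, z = (((((c : ℤ) - a : ℤ) : ℝ)) * (b : ℝ) ^ (k - 1 - i) + (((c' : ℤ) - a' : ℤ) : ℝ) * (b : ℝ) ^ i) * θ :=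
            ⟨_, rfl⟩
          have hfar := far_norm δ z hδ0.le (fun n' => by
            rw [hz]
            refine hg _ _ (by omega) (by omega) ?_ ?_ n'
            · rw [abs_lt]; omega
            · rw [abs_lt]; omega)
          have e1 : (r : ℂ) * E (a, a') + E (c, c') = E (a, a') * ((r : ℂ) + ee z) := by
            have e2 : E (c, c') = E (a, a') * ee z := by
              rw [hE]
              simp only
              rw [← ee_add, hz]
              congr 1
              have e3 : k - 1 - i = n + i + 1 := by omega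
              rw [e3]
              push_cast
              ring
            rw [e2]
            ring
          rw [e1, norm_mul, hnE, one_mul]
          have h4 := ratio_bd (4 * δ ^ 2) η r (ee z) (norm_ee z) (by positivity) (by linarith) hη0.le hη1 hr1 hr2 hfar
          refine h4.trans (le_of_eq ?_)
          ring
        have e5 : E (a, a') * S (a, a') + (E (c, c') * S (c, c') + ∑ q ∈ ((range b ×ˢ range b).erase (a, a')).erase (c, c'), E q * S q) =
            ((r : ℂ) * E (a, a') + E (c, c')) * S (c, c') + ∑ q ∈ ((range b ×ˢ range b).erase (a, a')).erase (c, c'), E q * S q := by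
          rw [hSr]
          ring
        rw [e5]
        have hrest : ‖∑ q ∈ ((range b ×ˢ range b).erase (a, a')).erase (c, c'), E q * S q‖ ≤
            ∑ q ∈ ((range b ×ˢ range b).erase (a, a')).erase (c, c'), C * h q * F := by
          refine (norm_sum_le _ _).trans (sum_le_sum fun q hq => ?_)
          rw [norm_mul, hnE, one_mul]
          exact hSb q (mem_of_mem_erase (mem_of_mem_erase hq))
        have hsumh : outer b μ (n + 2) i u u' = h (a, a') + (h (c, c') +
            ∑ q ∈ ((range b ×ˢ range b).erase (a, a')).erase (c, c'), h q) := by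
          rw [hO, ← add_sum_erase _ _ hα, ← add_sum_erase _ _ hβ]
        have hnr : ‖S (a, a')‖ = r * ‖S (c, c')‖ := by
          rw [hSr, norm_mul, Complex.norm_real, Real.norm_eq_abs, abs_of_nonneg hr0]
        have hp1' : η * outer b μ (n + 2) i u u' ≤ h (a, a') := by rw [hh]; exact hp1
        have hp2' : η * outer b μ (n + 2) i u u' ≤ h (c, c') := by rw [hh]; exact hp2
        have b1 := hSb _ hα
        have b2 := hSb _ hβ'
        obtain ⟨R, hR⟩ : ∃ R, R = ∑ q ∈ ((range b ×ˢ range b).erase (a, a')).erase (c, c'), h q := ⟨_, rfl⟩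
        have hrest' : ‖∑ q ∈ ((range b ×ˢ range b).erase (a, a')).erase (c, c'), E q * S q‖ ≤ C * R * F := by
          refine hrest.trans (le_of_eq ?_)
          rw [hR, mul_sum, sum_mul]
        rw [← hR] at hsumh
        have hw0 : 0 ≤ 1 - δ ^ 2 * η := by nlinarith
        have k1 : ‖((r : ℂ) * E (a, a') + E (c, c')) * S (c, c')‖ ≤ (1 - δ ^ 2 * η) * (C * h (a, a') * F + C * h (c, c') * F) := by
          rw [norm_mul]
          calc ‖(r : ℂ) * E (a, a') + E (c, c')‖ * ‖S (c, c')‖ ≤ ((r + 1) * (1 - δ ^ 2 * η)) * ‖S (c, c')‖ :=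
                mul_le_mul_of_nonneg_right hEE (norm_nonneg _)
            _ = (1 - δ ^ 2 * η) * (‖S (a, a')‖ + ‖S (c, c')‖) := by rw [hnr]; ring
            _ ≤ _ := mul_le_mul_of_nonneg_left (add_le_add b1 b2) hw0
        refine (norm_add_le _ _).trans ((add_le_add k1 hrest').trans ?_)
        have hCF : 0 ≤ C * F := mul_nonneg hC hF0
        have e6 : (1 - δ ^ 2 * η) * (C * h (a, a') * F + C * h (c, c') * F) + C * R * F =
            C * F * (h (a, a') + (h (c, c') + R)) - C * F * (δ ^ 2 * η * (h (a, a') + h (c, c'))) := by ring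
        have e7 : C * outer b μ (n + 2) i u u' * (F * ν) =
            C * F * outer b μ (n + 2) i u u' - C * F * (δ ^ 2 * η * (2 * (η * outer b μ (n + 2) i u u'))) := by
          rw [hν]
          ring
        rw [e6, e7, hsumh.symm]
        have e8 : δ ^ 2 * η * (2 * (η * outer b μ (n + 2) i u u')) ≤ δ ^ 2 * η * (h (a, a') + h (c, c')) :=
          mul_le_mul_of_nonneg_left (by linarith) (by positivity)
        have e9 := mul_le_mul_of_nonneg_left e8 hCF
        linarith
      · have hG : (range (k / 2)).filter (fun j => i ≤ j ∧ GM b δ θ k j) =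
            (range (k / 2)).filter (fun j => i + 1 ≤ j ∧ GM b δ θ k j) := by
          apply filter_congr
          intro j _
          constructor
          · rintro ⟨g1, g2⟩
            refine ⟨?_, g2⟩
            by_contra hcon
            have : j = i := by omega
            rw [this] at g2
            exact hg g2
          · rintro ⟨g1, g2⟩
            exact ⟨by omega, g2⟩
        rw [hG, ← hF, hZ, hO]
        refine (norm_sum_le _ _).trans ?_
        have : C * (∑ q ∈ range b ×ˢ range b, h q) * F = ∑ q ∈ range b ×ˢ range b, C * h q * F := by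
          rw [mul_sum, sum_mul]
        rw [this]
        apply sum_le_sum
        intro q hq
        rw [norm_mul, hnE, one_mul]
        exact hSb q hq

end Pool.Agent.U331.MW
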